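import Pool.Agent.H27.CAL.Stmts2

/-! Project CAL, module HB -/

open Filter
open scoped BigOperators ENNReal

namespace CAL

theorem cal_hb (𝕜 : Type*) [RCLike 𝕜] (X : Type*) [NormedAddCommGroup X] [NormedSpace 𝕜 X] :
    HBStmt 𝕜 X := by
  intro x v δ hδ h
  let M : Submodule 𝕜 X := Submodule.span 𝕜 {x}
  haveI : FiniteDimensional 𝕜 M := inferInstance
  haveI hcl : IsClosed (M : Set X) := Submodule.closed_of_finiteDimensional M
  have hnorm : δ ≤ ‖(Submodule.Quotient.mk v : X ⧸ M)‖ := by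
    apply le_of_forall_pos_le_add
    intro ε hε
    obtain ⟨m, hm, hm2⟩ := Submodule.Quotient.norm_mk_lt (S := M)
      (Submodule.Quotient.mk v : X ⧸ M) hε
    have h1 : m - v ∈ M := (Submodule.Quotient.eq M).1 hm
    obtain ⟨c, hc⟩ := Submodule.mem_span_singleton.1 h1
    have h2 : m = v - (-c) • x := by
      rw [neg_smul, sub_neg_eq_add, hc]; abel
    have h3 := h (-c)
    rw [← h2] at h3
    linarith
  have hne : ‖(Submodule.Quotient.mk v : X ⧸ M)‖ ≠ 0 := by
    intro h0
    rw [h0] at hnorm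
    linarith
  obtain ⟨g, hg1, hg2⟩ := exists_dual_vector 𝕜 (Submodule.Quotient.mk v : X ⧸ M) hne
  refine ⟨g.comp (M.mkQL), ?_, ?_, ?_⟩
  · apply ContinuousLinearMap.opNorm_le_bound _ zero_le_one
    intro w
    have h1 : ‖g (M.mkQ w)‖ ≤ ‖g‖ * ‖M.mkQ w‖ := g.le_opNorm _
    rw [hg1, one_mul] at h1
    rw [one_mul]
    exact h1.trans (Submodule.Quotient.norm_mk_le M w)
  · show g (Submodule.Quotient.mk x) = 0
    have : (Submodule.Quotient.mk x : X ⧸ M) = 0 :=
      (Submodule.Quotient.mk_eq_zero M).2 (Submodule.mem_span_singleton_self x)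
    rw [this, map_zero]
  · show δ ≤ RCLike.re (g (Submodule.Quotient.mk v))
    rw [hg2]
    simpa using hnorm

end CAL
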