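import Pool.Agent.H27.CAL.Stmts2

/-! Project CAL, module REP: functionals on X restricted to PX n -/

open Filter
open scoped BigOperators ENNReal

namespace CAL

section
variable {𝕜 : Type*} [RCLike 𝕜] {A : Type*} [PartialOrder A] {Y : Type*} [NormedAddCommGroup Y]
  [NormedSpace 𝕜 Y] {τ : TreeLev A}

theorem rep_toPt_sum {ι : Type*} (s : Finset ι) (u : ι → BB 𝕜 A Y) :
    toPt (∑ i ∈ s, u i) = ∑ i ∈ s, toPt (u i) := by
  classical
  induction s using Finset.induction_on with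
  | empty => rfl
  | insert a s ha ih => rw [Finset.sum_insert ha, Finset.sum_insert ha, toPt_add, ih]

theorem rep_sgS_snd (γ β : ℕ) : (toPt (sgS A Y γ : BB 𝕜 A Y)).2 β = if β = γ then 1 else 0 := by
  show (lp.single (E := fun _ : ℕ => 𝕜) ∞ γ (1 : 𝕜) : ℕ → 𝕜) β = _
  rw [lp.single_apply, Pi.single_apply]

theorem rep_sgS_fst (γ : ℕ) (a : A) : (toPt (sgS A Y γ : BB 𝕜 A Y)).1 a = 0 := rfl

open Classical in
theorem rep_sgN_fst (a : A) (y : Y) (b : A) :
    (toPt (sgN a y : BB 𝕜 A Y)).1 b = if b = a then y else 0 := by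
  show (lp.single (E := fun _ : A => Y) ∞ a y : A → Y) b = _
  rw [lp.single_apply, Pi.single_apply]

theorem rep_sgN_snd (a : A) (y : Y) (γ : ℕ) : (toPt (sgN a y : BB 𝕜 A Y)).2 γ = 0 := rfl

/-- extension of a bounded point from its coordinates of level at most n -/
theorem rep_EX (D : Dat 𝕜 Y τ) (n : ℕ) (G : Finset ℕ) (N : Finset A)
    (hG : ∀ γ, γ ∈ G ↔ D.lev γ ≤ n) (hN : ∀ a, a ∈ N ↔ τ.lev a ≤ n) (z : BB 𝕜 A Y) :
    D.EX n z = D.EX n (∑ γ ∈ G, (toPt z).2 γ • (sgS A Y γ : BB 𝕜 A Y) +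
      ∑ a ∈ N, sgN a ((toPt z).1 a)) := by
  classical
  apply Subtype.ext
  rw [D.coe_EX, D.coe_EX]
  apply toPt_inj
  rw [D.toPt_Pc, D.toPt_Pc]
  apply D.P_congr
  · intro a ha
    rw [toPt_add, rep_toPt_sum, rep_toPt_sum]
    simp only [Prod.fst_add, Pi.add_apply, Prod.fst_sum, Finset.sum_apply, toPt_smul,
      Prod.smul_fst, Pi.smul_apply]
    rw [Finset.sum_eq_zero (fun γ _ => by rw [rep_sgS_fst, smul_zero]), zero_add,
      Finset.sum_eq_single a]
    · rw [rep_sgN_fst, if_pos rfl]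
    · intro b _ hb
      rw [rep_sgN_fst, if_neg (fun h => hb h.symm)]
    · intro h
      exact absurd ((hN a).2 ha) h
  · intro γ hγ
    rw [toPt_add, rep_toPt_sum, rep_toPt_sum]
    simp only [Prod.snd_add, Pi.add_apply, Prod.snd_sum, Finset.sum_apply, toPt_smul,
      Prod.smul_snd, Pi.smul_apply]
    rw [Finset.sum_eq_zero (s := N) (fun a _ => by rw [rep_sgN_snd]), add_zero,
      Finset.sum_eq_single γ]
    · rw [rep_sgS_snd, if_pos rfl, smul_eq_mul, mul_one]
    · intro b _ hb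
      rw [rep_sgS_snd, if_neg (fun h => hb h.symm), smul_zero]
    · intro h
      exact absurd ((hG γ).2 hγ) h

theorem cal_rep (D : Dat 𝕜 Y τ) : REPStmt D := by
  classical
  intro f n
  set G : Finset ℕ := (D.fin n).toFinset with hGd
  set N : Finset A := (τ.fin n).toFinset with hNd
  have hG : ∀ γ, γ ∈ G ↔ D.lev γ ≤ n := by intro γ; simp [hGd]
  have hN : ∀ a, a ∈ N ↔ τ.lev a ≤ n := by intro γ; simp [hNd]
  set g : BB 𝕜 A Y →L[𝕜] 𝕜 := f.comp (D.EX n) with hg
  have hgn : ∀ z, ‖g z‖ ≤ 2 * ‖f‖ * ‖z‖ := by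
    intro z
    have h1 : ‖f (D.EX n z)‖ ≤ ‖f‖ * ‖D.EX n z‖ := f.le_opNorm _
    have h2 := D.norm_EX_le n z
    have h3 : ‖f‖ * ‖D.EX n z‖ ≤ ‖f‖ * (2 * ‖z‖) := mul_le_mul_of_nonneg_left h2 (norm_nonneg f)
    show ‖f (D.EX n z)‖ ≤ _
    linarith
  let c1 : ℕ →₀ 𝕜 := Finsupp.onFinset G (fun γ => if γ ∈ G then g (sgS A Y γ) else 0)
    (fun γ h => by by_contra h'; simp [h'] at h)
  let c2 : A →₀ (Y →L[𝕜] 𝕜) := Finsupp.onFinset N (fun a => if a ∈ N then g.comp (sgN a) else 0)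
    (fun γ h => by by_contra h'; simp [h'] at h)
  have hc1 : c1.support ⊆ G := Finsupp.support_onFinset_subset
  have hc2 : c2.support ⊆ N := Finsupp.support_onFinset_subset
  have hc1v : ∀ γ ∈ G, c1 γ = g (sgS A Y γ) := fun γ hγ => by
    show (if γ ∈ G then g (sgS A Y γ) else 0) = _
    rw [if_pos hγ]
  have hc2v : ∀ a ∈ N, c2 a = g.comp (sgN a) := fun a ha => by
    show (if a ∈ N then g.comp (sgN a) else 0) = _
    rw [if_pos ha]
  -- value formula
  have hval : ∀ z : BB 𝕜 A Y, g z = ev (c1, c2) (toPt z) := by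
    intro z
    show f (D.EX n z) = _
    rw [rep_EX D n G N hG hN z]
    have h1 : f (D.EX n (∑ γ ∈ G, (toPt z).2 γ • (sgS A Y γ : BB 𝕜 A Y) +
      ∑ a ∈ N, sgN a ((toPt z).1 a))) = ∑ γ ∈ G, (toPt z).2 γ * g (sgS A Y γ) +
        ∑ a ∈ N, g (sgN a ((toPt z).1 a)) := by
      show g _ = _
      rw [map_add, map_sum, map_sum]
      congr 1
      exact Finset.sum_congr rfl (fun γ _ => by rw [map_smul, smul_eq_mul])
    rw [h1]
    unfold ev
    congr 1
    · rw [Finsupp.sum_of_support_subset c1 hc1 _ (by intros; simp)]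
      refine Finset.sum_congr rfl (fun γ hγ => ?_)
      rw [hc1v γ hγ, mul_comm]
    · rw [Finsupp.sum_of_support_subset c2 hc2 _ (by intros; simp)]
      refine Finset.sum_congr rfl (fun a ha => ?_)
      rw [hc2v a ha]
      rfl
  refine ⟨(c1, c2), fun β hβ => (hG β).1 (hc1 hβ), fun a ha => (hN a).1 (hc2 ha), ?_, ?_⟩
  · -- the norm
    apply le_of_forall_pos_le_add
    intro ε hε
    set ε' : ℝ := ε / (N.card + 1) with hε'
    have hNp : (0 : ℝ) < N.card + 1 := Nat.cast_add_one_pos _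
    have hε'p : 0 < ε' := div_pos hε hNp
    -- unimodular scalars
    have huni : ∀ w : 𝕜, ∃ α : 𝕜, ‖α‖ ≤ 1 ∧ w * α = (‖w‖ : 𝕜) := by
      intro w
      by_cases hw : w = 0
      · exact ⟨0, by simp, by simp [hw]⟩
      · have hw' : (‖w‖ : 𝕜) ≠ 0 := by
          simpa using hw
        refine ⟨(starRingEnd 𝕜) w / (‖w‖ : 𝕜), ?_, ?_⟩
        · rw [norm_div, RCLike.norm_conj, RCLike.norm_ofReal, abs_norm, div_self]
          simpa using hw
        · rw [mul_div_assoc', RCLike.mul_conj, pow_two, mul_div_assoc, div_self hw', mul_one]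
    choose α hα1 hα2 using huni
    have hy : ∀ a : A, ∃ y : Y, ‖y‖ ≤ 1 ∧ ‖c2 a‖ - ε' ≤ RCLike.re (c2 a y) := by
      intro a
      by_cases h0 : ‖c2 a‖ - ε' ≤ 0
      · exact ⟨0, by simp, by simpa using h0⟩
      · rw [not_le] at h0
        have hlt : ‖c2 a‖ - ε' < ‖c2 a‖ := by linarith
        obtain ⟨y, hy1, hy2⟩ := (c2 a).exists_lt_apply_of_lt_opNorm hlt
        refine ⟨α (c2 a y) • y, ?_, ?_⟩
        · rw [norm_smul]
          have := hα1 (c2 a y)
          have h3 := norm_nonneg y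
          have h4 := norm_nonneg (α (c2 a y))
          nlinarith
        · rw [map_smul, smul_eq_mul, mul_comm, hα2, RCLike.ofReal_re]
          exact hy2.le
    choose y hy1 hy2 using hy
    let z : BB 𝕜 A Y := mkB (y, fun γ => α (c1 γ)) 1 hy1 (fun γ => hα1 (c1 γ))
    have hz : ‖z‖ ≤ 1 := norm_BB_le zero_le_one hy1 (fun γ => hα1 (c1 γ))
    have h1 : ‖g z‖ ≤ 2 * ‖f‖ := by
      refine (hgn z).trans ?_
      have : 0 ≤ 2 * ‖f‖ := by positivity
      nlinarith [norm_nonneg z]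
    have h2 : RCLike.re (g z) ≤ 2 * ‖f‖ := (RCLike.re_le_norm _).trans h1
    have h3 : RCLike.re (g z) = (c1.sum fun _ c => ‖c‖) +
        c2.sum fun a f => RCLike.re (f (y a)) := by
      rw [hval z]
      unfold ev
      rw [map_add]
      congr 1
      · unfold Finsupp.sum
        rw [map_sum]
        refine Finset.sum_congr rfl (fun γ _ => ?_)
        show RCLike.re (c1 γ * α (c1 γ)) = _
        rw [hα2, RCLike.ofReal_re]
      · unfold Finsupp.sum
        rw [map_sum]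
        rfl
    have h4 : (c2.sum fun _ f => ‖f‖) - ε ≤ c2.sum fun a f => RCLike.re (f (y a)) := by
      unfold Finsupp.sum
      have h5 : ∑ a ∈ c2.support, (‖c2 a‖ - ε') ≤ ∑ a ∈ c2.support, RCLike.re (c2 a (y a)) :=
        Finset.sum_le_sum (fun a _ => hy2 a)
      rw [Finset.sum_sub_distrib, Finset.sum_const, nsmul_eq_mul] at h5
      have h6 : (c2.support.card : ℝ) * ε' ≤ ε := by
        have h7 : (c2.support.card : ℝ) ≤ N.card + 1 := by
          have : (c2.support.card : ℝ) ≤ N.card := by exact_mod_cast Finset.card_le_card hc2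
          linarith
        calc (c2.support.card : ℝ) * ε' ≤ (N.card + 1) * ε' :=
              mul_le_mul_of_nonneg_right h7 hε'p.le
          _ = ε := by rw [hε', mul_div_assoc', mul_comm, mul_div_assoc, div_self hNp.ne', mul_one]
      linarith
    show (c1.sum fun _ c => ‖c‖) + (c2.sum fun _ f => ‖f‖) ≤ _
    linarith
  · intro x
    exact hval (x : BB 𝕜 A Y)

end

end CAL
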