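import Pool.Agent.H27.CAL.Stmts2

/-! Project CAL, module RUN -/

open Filter
open scoped BigOperators ENNReal

namespace CAL

universe u

theorem cal_run : RUNStmt.{u} := by
  classical
  intro Ch F j σ H pos A Inv R h0 h1
  -- good states
  set good : σ → Prop := fun a => ∃ l, Good (WW Ch F.Fam j) (epsj j) (H a) l with hgood
  have hext : ∀ a, ¬ good a → ∀ n, (∀ h ∈ H a, h < n) → F.Fam j (insert n (H a)) := by
    intro a ha
    rcases F.ext j (H a) with h | h
    · exact absurd h ha
    · exact h
  have hsing : ∀ n, F.Fam j {n} := by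
    intro n
    rcases F.ext j ∅ with ⟨l, hl⟩ | h
    · exfalso
      have := hl.2.2.1
      simp at this
    · have := h n (by simp)
      simpa using this
  obtain ⟨a0, hA0, hI0, hH0⟩ := h0 hsing
  have hnx : ∀ a, ∃ a', (Inv a ∧ ¬ good a) →
      (Inv a' ∧ R a a' ∧ (∀ h ∈ H a, h < pos a') ∧ H a' = insert (pos a') (H a)) := by
    intro a
    by_cases h : Inv a ∧ ¬ good a
    · obtain ⟨a', ha'⟩ := h1 a h.1 (hext a h.2)
      exact ⟨a', fun _ => ha'⟩
    · exact ⟨a, fun h' => absurd h' h⟩
  choose nxt hnxt using hnx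
  let sq : ℕ → σ := fun r => Nat.rec a0 (fun _ a => nxt a) r
  have sq0 : sq 0 = a0 := rfl
  have sqs : ∀ r, sq (r + 1) = nxt (sq r) := fun r => rfl
  have key : ∀ r, (∀ i < r, ¬ good (sq i)) →
      Inv (sq r) ∧ H (sq r) = (Finset.range (r + 1)).image (fun i => pos (sq i)) := by
    intro r
    induction r with
    | zero =>
      intro _
      refine ⟨hI0, ?_⟩
      rw [sq0, hH0]
      simp [sq0]
    | succ r ih =>
      intro hr
      obtain ⟨h1', h2'⟩ := ih (fun i hi => hr i (by omega))
      obtain ⟨q1, q2, q3, q4⟩ := hnxt (sq r) ⟨h1', hr r (by omega)⟩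
      refine ⟨by rw [sqs]; exact q1, ?_⟩
      rw [sqs, q4, h2', Finset.range_add_one (n := r + 1), Finset.image_insert, sqs]
  have stp : ∀ r, (∀ i < r + 1, ¬ good (sq i)) →
      R (sq r) (sq (r + 1)) ∧ pos (sq r) < pos (sq (r + 1)) ∧
      F.Fam j (H (sq (r + 1))) := by
    intro r hr
    obtain ⟨h1', h2'⟩ := key r (fun i hi => hr i (by omega))
    obtain ⟨q1, q2, q3, q4⟩ := hnxt (sq r) ⟨h1', hr r (by omega)⟩
    refine ⟨q2, ?_, ?_⟩
    · apply q3
      rw [h2']
      exact Finset.mem_image.2 ⟨r, Finset.mem_range.2 (by omega), rfl⟩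
    · rw [sqs, q4]
      exact hext (sq r) (hr r (by omega)) _ q3
  have hex : ∃ r, good (sq r) := by
    by_contra hno
    push_neg at hno
    have hmono : StrictMono (fun r => pos (sq r)) :=
      strictMono_nat_of_lt_succ (fun r => (stp r (fun i _ => hno i)).2.1)
    obtain ⟨n, hn⟩ := F.wf j _ hmono
    apply hn
    cases n with
    | zero =>
      have := F.init j {0} 0 (hsing 0)
      simpa using this
    | succ r =>
      rw [← (key r (fun i _ => hno i)).2]
      cases r with
      | zero => rw [sq0, hH0]; exact hsing _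
      | succ r => exact (stp r (fun i _ => hno i)).2.2
  have hfind := Nat.find_spec hex
  have hmin : ∀ i < Nat.find hex, ¬ good (sq i) := fun i hi => Nat.find_min hex hi
  obtain ⟨l, hl⟩ := hfind
  refine ⟨Nat.find hex + 1, sq, l, Nat.succ_pos _, by rw [sq0]; exact hA0, ?_, ?_, ?_, ?_, ?_⟩
  · intro r hr
    exact (key r (fun i hi => hmin i (by omega))).1
  · intro r hr
    exact (stp r (fun i hi => hmin i (by omega))).1
  · intro r hr
    exact (stp r (fun i hi => hmin i (by omega))).2.1
  · intro r hr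
    exact (key r (fun i hi => hmin i (by omega))).2
  · rw [← (key (Nat.find hex) hmin).2]
    exact hl

end CAL
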