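import Pool.Agent.H27.CAL.Stmts2

/-! Project CAL, module WNC: compact operators and weakly null sequences -/

open Filter Topology
open scoped BigOperators ENNReal

namespace CAL

theorem cal_wnc (𝕜 : Type*) [RCLike 𝕜] (X Z : Type*) [NormedAddCommGroup X] [NormedSpace 𝕜 X]
    [NormedAddCommGroup Z] [NormedSpace 𝕜 Z] : WNCStmt 𝕜 X Z := by
  intro K hK x C hC hw
  obtain ⟨S, hS, hS2⟩ := hK.image_subset_compact_of_bounded (𝕜₁ := 𝕜) (f := (K : X →ₗ[𝕜] Z))
    (S := Set.range x) (isBounded_iff_forall_norm_le.2 ⟨C, by rintro _ ⟨k, rfl⟩; exact hC k⟩)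
  apply tendsto_of_subseq_tendsto
  intro ns hns
  have hmem : ∀ k, K (x (ns k)) ∈ S := fun k => hS2 ⟨x (ns k), ⟨ns k, rfl⟩, rfl⟩
  obtain ⟨v, -, φ, hφ, hv⟩ := hS.tendsto_subseq hmem
  refine ⟨φ, ?_⟩
  have hv0 : v = 0 := by
    apply (NormedSpace.eq_zero_iff_forall_dual_eq_zero 𝕜 v).2
    intro g
    have h1 : Tendsto (fun k => g (K (x (ns (φ k))))) atTop (𝓝 (g v)) :=
      (g.continuous.tendsto v).comp hv
    have h2 : Tendsto (fun k => (g.comp K) (x (ns (φ k)))) atTop (𝓝 0) :=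
      (hw (g.comp K)).comp (hns.comp hφ.tendsto_atTop)
    exact tendsto_nhds_unique h1 h2
  rw [hv0] at hv
  exact hv

end CAL
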